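import Mathlib

/-!
# Almost minimal abelian topological groups: definitions
-/

set_option autoImplicit false

namespace Pool.Agent.Q307.AMin

open Topology

universe u

/-- An abelian Hausdorff topological group is minimal if every coarser Hausdorff group topology on it
is equal to its topology. (In Mathlib `t ≤ σ` says that `t` is finer than `σ`.) -/
def Minimal (G : Type u) [AddCommGroup G] [t : TopologicalSpace G] : Prop :=
  T2Space G ∧ ∀ σ : TopologicalSpace G, @IsTopologicalAddGroup G σ _ → @T2Space G σ → t ≤ σ → σ = t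

/-- `(1/n) U`. -/
def frac {G : Type u} [AddCommGroup G] (n : ℕ) (U : Set G) : Set G :=
  {x | ∀ k : ℕ, 1 ≤ k → k ≤ n → k • x ∈ U}

/-- The group is uniformly free from small subgroups. -/
def UFSS (G : Type u) [AddCommGroup G] [TopologicalSpace G] : Prop :=
  T2Space G ∧ ∃ U ∈ 𝓝 (0 : G), (∀ x ∈ U, -x ∈ U) ∧
    (𝓝 (0 : G)).HasBasis (fun n : ℕ => 1 ≤ n) fun n => frac n U

/-- The group has a closed minimal subgroup `N` such that `G ⧸ N` is uniformly free from small
subgroups. -/
def AlmostMinimal (G : Type u) [AddCommGroup G] [TopologicalSpace G] : Prop :=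
  ∃ N : AddSubgroup G, IsClosed (N : Set G) ∧ Minimal N ∧ UFSS (G ⧸ N)

end Pool.Agent.Q307.AMin
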