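import Pool.Agent.Q307.AMin.Gen

set_option autoImplicit false

namespace Pool.Agent.Q307.AMin

open Topology Filter Set

/-- Rational linear functionals on the real line which vanish at `1`. -/
theorem exists_coords : ∃ (c : ℕ → (ℝ →ₗ[ℚ] ℚ)) (r : ℕ → ℝ), (∀ i, c i 1 = 0) ∧
    ∀ i n, c i (r n) = if i = n then 1 else 0 := by
  classical
  set b := Module.Basis.ofVectorSpace ℚ ℝ with hb
  have hinf : Infinite (Module.Basis.ofVectorSpaceIndex ℚ ℝ) := by
    by_contra hfin
    rw [not_infinite_iff_finite] at hfin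
    have h1 : Countable (Module.Basis.ofVectorSpaceIndex ℚ ℝ → ℚ) := inferInstance
    have h2 : Countable ℝ := Countable.of_equiv _ b.equivFun.toEquiv.symm
    exact not_countable (α := ℝ) h2
  set s := (b.repr 1).support with hs
  have hsi : (↑s : Set (Module.Basis.ofVectorSpaceIndex ℚ ℝ))ᶜ.Infinite :=
    s.finite_toSet.infinite_compl
  set g := Set.Infinite.natEmbedding _ hsi with hg
  refine ⟨fun i => b.coord (g i).1, fun n => b (g n).1, fun i => ?_, fun i n => ?_⟩
  · have h1 : (g i).1 ∉ s := (g i).2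
    rw [Module.Basis.coord_apply]
    exact Finsupp.notMem_support_iff.mp h1
  · rw [Module.Basis.coord_apply, Module.Basis.repr_self, Finsupp.single_apply]
    by_cases h : i = n
    · subst h
      simp
    · rw [if_neg h, if_neg]
      intro he
      exact h (g.injective (Subtype.ext he)).symm

/-- The compact group. -/
abbrev K : Type := (ℕ → ZMod 4) × UnitAddCircle

/-- Reduction modulo two. -/
def md : ZMod 4 →+* ZMod 2 := ZMod.castHom (show 2 ∣ 4 by norm_num) (ZMod 2)

theorem md_one : md 1 ≠ 0 := by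
  rw [map_one]
  decide

theorem md_two (a : ZMod 4) (h : 2 • a = 0) : md a = 0 := by
  unfold md
  revert a
  decide

theorem four_smul (a : ZMod 4) : 4 • a = 0 := by
  revert a
  decide

section

variable (c : ℕ → (ℝ →ₗ[ℚ] ℚ))

/-- The coordinates of `r` are integers congruent to the coordinates of `x` modulo two. -/
def InE (x : ℕ → ZMod 4) (r : ℝ) : Prop :=
  ∀ i, ∃ k : ℤ, c i r = k ∧ md (x i) = (k : ZMod 2)

variable {c} (hc : ∀ i, c i 1 = 0)

include hc in
theorem c_int (i : ℕ) (n : ℤ) : c i (n : ℝ) = 0 := by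
  have : ((n : ℤ) : ℝ) = n • (1 : ℝ) := by simp
  rw [this, map_zsmul, hc, smul_zero]

include hc in
theorem c_rat (i : ℕ) (q : ℚ) : c i (q : ℝ) = 0 := by
  have : ((q : ℚ) : ℝ) = q • (1 : ℝ) := by
    rw [Rat.smul_def]; simp
  rw [this, map_smul, hc, smul_zero]

include hc in
theorem c_div (i : ℕ) {r : ℝ} {m n : ℤ} (hm : m ≠ 0) (h : m • r = n) : c i r = 0 := by
  have h1 : c i (m • r) = 0 := by rw [h]; exact c_int hc i n
  rw [map_zsmul] at h1
  rcases smul_eq_zero.mp h1 with h2 | h2
  · exact absurd h2 hm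
  · exact h2

include hc in
theorem InE.shift {x : ℕ → ZMod 4} {r r' : ℝ} (h : InE c x r)
    (hr : (r : UnitAddCircle) = (r' : UnitAddCircle)) : InE c x r' := by
  intro i
  obtain ⟨k, h1, h2⟩ := h i
  refine ⟨k, ?_, h2⟩
  have h3 : ((r' - r : ℝ) : UnitAddCircle) = 0 := by
    rw [AddCircle.coe_sub, hr, sub_self]
  obtain ⟨n, hn⟩ := (AddCircle.coe_eq_zero_iff _).mp h3
  have h4 : r' = r + (n : ℝ) := by
    have : (n : ℝ) = r' - r := by rw [← hn]; simp
    rw [this]; ring
  rw [h4, map_add, c_int hc, h1, add_zero]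

variable (c) in
/-- The minimal group. -/
def N : AddSubgroup K where
  carrier := {p | ∃ r : ℝ, (r : UnitAddCircle) = p.2 ∧ InE c p.1 r}
  zero_mem' := ⟨0, by simp, fun i => ⟨0, by simp, by simp⟩⟩
  add_mem' := by
    rintro p q ⟨r, hr, h⟩ ⟨r', hr', h'⟩
    refine ⟨r + r', by rw [AddCircle.coe_add, hr, hr']; rfl, fun i => ?_⟩
    obtain ⟨k, h1, h2⟩ := h i
    obtain ⟨k', h1', h2'⟩ := h' i
    refine ⟨k + k', ?_, ?_⟩
    · rw [map_add, h1, h1']; push_cast; rfl
    · rw [Prod.fst_add, Pi.add_apply, map_add, h2, h2']; push_cast; rfl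
  neg_mem' := by
    rintro p ⟨r, hr, h⟩
    refine ⟨-r, by rw [AddCircle.coe_neg, hr]; rfl, fun i => ?_⟩
    obtain ⟨k, h1, h2⟩ := h i
    refine ⟨-k, ?_, ?_⟩
    · rw [map_neg, h1]; push_cast; rfl
    · rw [Prod.fst_neg, Pi.neg_apply, map_neg, h2]; push_cast; rfl

include hc in
/-- The group is essential. -/
theorem essential (L : AddSubgroup K) (hL : IsClosed (L : Set K)) (hne : L ≠ ⊥) :
    ∃ g ∈ L, g ≠ 0 ∧ g ∈ N c := by
  obtain ⟨⟨g, hg⟩, hg'⟩ := AddSubgroup.ne_bot_iff_exists_ne_zero.mp hne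
  have hg0 : g ≠ 0 := fun h => hg' (Subtype.ext h)
  by_cases h4 : 4 • g = 0
  · obtain ⟨h, hhL, hh0, hh2⟩ : ∃ h ∈ L, h ≠ 0 ∧ 2 • h = 0 := by
      by_cases h2 : 2 • g = 0
      · exact ⟨g, hg, hg0, h2⟩
      · exact ⟨2 • g, L.nsmul_mem hg 2, h2, by rw [← mul_nsmul]; exact h4⟩
    refine ⟨h, hhL, hh0, ?_⟩
    obtain ⟨x, t⟩ := h
    obtain ⟨r, rfl⟩ := QuotientAddGroup.mk_surjective t
    refine ⟨r, rfl, fun i => ⟨0, ?_, ?_⟩⟩
    · have h1 : ((2 • r : ℝ) : UnitAddCircle) = 0 := by
        rw [AddCircle.coe_nsmul]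
        exact congrArg Prod.snd hh2
      obtain ⟨n, hn⟩ := (AddCircle.coe_eq_zero_iff _).mp h1
      rw [c_div hc i (m := 2) (n := n) two_ne_zero]
      · simp
      · rw [zsmul_one] at hn
        rw [hn]
        simp [two_smul]
    · have h1 : 2 • x i = 0 := congrFun (congrArg Prod.fst hh2) i
      rw [md_two _ h1]
      simp
  · set R : AddSubgroup ℝ := L.comap ((AddMonoidHom.inr (ℕ → ZMod 4) UnitAddCircle).comp
      (QuotientAddGroup.mk' _)) with hR
    have hmem : ∀ r : ℝ, r ∈ R ↔ ((0, (r : UnitAddCircle)) : K) ∈ L := fun r => Iff.rfl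
    have hRcl : IsClosed (R : Set ℝ) := by
      have : Continuous fun r : ℝ => ((0, (r : UnitAddCircle)) : K) :=
        continuous_const.prodMk (AddCircle.continuous_mk' _)
      exact hL.preimage this
    have h1R : (1 : ℝ) ∈ R := by
      rw [hmem]
      have : ((1 : ℝ) : UnitAddCircle) = 0 := AddCircle.coe_period _
      rw [this]
      exact L.zero_mem
    obtain ⟨r0, hr0, hr0'⟩ : ∃ r0 ∈ R, (r0 : UnitAddCircle) ≠ 0 := by
      obtain ⟨x, t⟩ := g
      obtain ⟨r, rfl⟩ := QuotientAddGroup.mk_surjective t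
      have e : 4 • ((x, (r : UnitAddCircle)) : K) = (0, ((4 • r : ℝ) : UnitAddCircle)) := by
        refine Prod.ext ?_ ?_
        · funext i
          exact four_smul (x i)
        · show 4 • (r : UnitAddCircle) = _
          rw [AddCircle.coe_nsmul]
      refine ⟨4 • r, ?_, fun h => h4 ?_⟩
      · rw [hmem, ← e]
        exact L.nsmul_mem hg 4
      · refine e.trans ?_
        rw [h]
        rfl
    rcases R.dense_or_cyclic with hd | ⟨a, ha⟩
    · have hu : (R : Set ℝ) = univ := by
        rw [← hRcl.closure_eq]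
        exact hd.closure_eq
      have hhalf : (1 / 2 : ℝ) ∈ R := by
        have : (1 / 2 : ℝ) ∈ (R : Set ℝ) := by rw [hu]; exact mem_univ _
        exact this
      refine ⟨(0, ((1 / 2 : ℝ) : UnitAddCircle)), (hmem _).mp hhalf, ?_, 1 / 2, rfl, fun i =>
        ⟨0, ?_, by simp⟩⟩
      · intro h
        obtain ⟨n, hn⟩ := (AddCircle.coe_eq_zero_iff _).mp (congrArg Prod.snd h)
        rw [zsmul_one] at hn
        have h2 : (2 * n : ℝ) = 1 := by rw [hn]; norm_num
        have h3 : 2 * n = 1 := by exact_mod_cast h2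
        omega
      · rw [c_div hc i (m := 2) (n := 1) two_ne_zero]
        · simp
        · norm_num
    · rw [← AddSubgroup.zmultiples_eq_closure] at ha
      obtain ⟨n, hn⟩ := AddSubgroup.mem_zmultiples_iff.mp (ha ▸ h1R)
      obtain ⟨m, hm⟩ := AddSubgroup.mem_zmultiples_iff.mp (ha ▸ hr0)
      have haR : a ∈ R := by rw [ha]; exact AddSubgroup.mem_zmultiples a
      refine ⟨(0, (a : UnitAddCircle)), (hmem _).mp haR, ?_, a, rfl, fun i => ⟨0, ?_, by simp⟩⟩
      · intro h
        apply hr0'
        have h' : (a : UnitAddCircle) = 0 := congrArg Prod.snd h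
        rw [← hm, AddCircle.coe_zsmul, h']
        exact smul_zero m
      · rw [c_div hc i (m := n) (n := 1)]
        · simp
        · rintro rfl
          rw [zero_smul] at hn
          exact zero_ne_one hn
        · rw [hn]; simp

variable (c) in
/-- The almost minimal group. -/
abbrev G : Type := ↥(N c) × ℝ

include hc in
theorem almostMinimal_G : AlmostMinimal (G c) := by
  set ρ : G c →+ ℝ := AddMonoidHom.snd (↥(N c)) ℝ with hρ
  refine ⟨ρ.ker, ?_, ?_, ?_⟩
  · have : ((ρ.ker : AddSubgroup (G c)) : Set (G c)) = {g | g.2 = 0} := rfl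
    rw [this]
    exact isClosed_eq continuous_snd continuous_const
  · let ψ : ρ.ker → N c := fun g => g.1.1
    let χ : N c → ρ.ker := fun n => ⟨(n, 0), rfl⟩
    have hψ : IsEmbedding ψ := by
      refine Function.LeftInverse.isEmbedding (f := χ) ?_ ?_ ?_
      · rintro ⟨⟨n, r⟩, h⟩
        have h0 : r = 0 := h
        subst h0
        rfl
      · exact (continuous_id.prodMk continuous_const).subtype_mk _
      · exact continuous_fst.comp continuous_subtype_val
    refine minimal_of_essential (K := K) ((N c).subtype.comp ((AddMonoidHom.fst _ _).comp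
      ρ.ker.subtype)) (IsEmbedding.subtypeVal.comp hψ) ?_
    intro L hL hne
    obtain ⟨g, hg, hg0, hgN⟩ := essential hc L hL hne
    refine ⟨χ ⟨g, hgN⟩, fun h => hg0 ?_, hg⟩
    exact congrArg (fun a : ρ.ker => (a.1.1 : K)) h
  · set κ := QuotientAddGroup.kerLift ρ with hκ
    have hκm : ∀ g : G c, κ (QuotientAddGroup.mk g) = g.2 := fun g => rfl
    have hcont : Continuous κ := by
      refine continuous_quot_lift _ ?_
      exact continuous_snd
    have hinj : Function.Injective κ := QuotientAddGroup.kerLift_injective ρ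
    refine ⟨T2Space.of_injective_continuous hinj hcont, {q | |κ q| < 1}, ?_, ?_, ?_⟩
    · have : IsOpen {q | |κ q| < 1} := isOpen_lt (continuous_abs.comp hcont) continuous_const
      exact this.mem_nhds (by simp)
    · intro q hq
      simpa using hq
    · have hfr : ∀ n : ℕ, 1 ≤ n → frac n {q | |κ q| < 1} = {q | |κ q| < 1 / n} := by
        intro n hn
        have hn0 : (0 : ℝ) < n := by exact_mod_cast hn
        ext q
        constructor
        · intro hq
          have h1 : |κ (n • q)| < 1 := hq n hn le_rfl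
          rw [map_nsmul, nsmul_eq_mul, abs_mul, Nat.abs_cast] at h1
          show |κ q| < 1 / n
          rw [lt_div_iff₀ hn0, mul_comm]
          exact h1
        · intro hq k _ hk
          show |κ (k • q)| < 1
          have hq' : |κ q| < 1 / n := hq
          rw [lt_div_iff₀ hn0] at hq'
          rw [map_nsmul, nsmul_eq_mul, abs_mul, Nat.abs_cast]
          have h2 : (k : ℝ) ≤ n := by exact_mod_cast hk
          calc (k : ℝ) * |κ q| ≤ n * |κ q| := mul_le_mul_of_nonneg_right h2 (abs_nonneg _)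
            _ < 1 := by rw [mul_comm]; exact hq'
      refine ⟨fun V => ⟨fun hV => ?_, ?_⟩⟩
      · have h1 : (QuotientAddGroup.mk ⁻¹' V : Set (G c)) ∈ 𝓝 (0 : G c) := by
          have : Continuous (QuotientAddGroup.mk : G c → G c ⧸ ρ.ker) :=
            QuotientAddGroup.continuous_mk
          exact this.continuousAt (by simpa using hV)
        rw [show (0 : G c) = (0, 0) from rfl, mem_nhds_prod_iff] at h1
        obtain ⟨A, hA, B, hB, hAB⟩ := h1
        obtain ⟨ε, hε, hball⟩ := Metric.mem_nhds_iff.mp hB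
        obtain ⟨n, hn⟩ := exists_nat_one_div_lt hε
        refine ⟨n + 1, Nat.succ_le_succ (Nat.zero_le n), ?_⟩
        rw [hfr _ (Nat.succ_le_succ (Nat.zero_le n))]
        intro q hq
        obtain ⟨⟨m, r⟩, rfl⟩ := QuotientAddGroup.mk_surjective q
        have hr : |r| < 1 / ((n + 1 : ℕ) : ℝ) := hq
        have hr2 : r ∈ B := hball (by
          rw [Metric.mem_ball, dist_zero_right, Real.norm_eq_abs]
          refine hr.trans ?_
          push_cast
          exact hn)
        have h2 : (QuotientAddGroup.mk ((m, r) : G c) : G c ⧸ ρ.ker) =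
            QuotientAddGroup.mk ((0, r) : G c) := hinj rfl
        rw [h2]
        exact hAB (mk_mem_prod (mem_of_mem_nhds hA) hr2)
      · rintro ⟨n, hn, hV⟩
        rw [hfr n hn] at hV
        have hn0 : (0 : ℝ) < n := by exact_mod_cast hn
        have : IsOpen {q | |κ q| < 1 / (n : ℝ)} :=
          isOpen_lt (continuous_abs.comp hcont) continuous_const
        refine mem_of_superset (this.mem_nhds ?_) hV
        show |κ 0| < 1 / (n : ℝ)
        rw [map_zero, abs_zero]
        positivity

end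

end Pool.Agent.Q307.AMin
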