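import Pool.Agent.Q307.AMin.Defs

set_option autoImplicit false

namespace Pool.Agent.Q307.AMin

open Topology Filter Set

universe u v

/-- Essential subgroups of compact groups are minimal. -/
theorem minimal_of_essential {A : Type u} [AddCommGroup A] [t : TopologicalSpace A]
    [IsTopologicalAddGroup A] {K : Type v} [AddCommGroup K] [TopologicalSpace K]
    [IsTopologicalAddGroup K] [CompactSpace K] [T2Space K] (φ : A →+ K) (hφ : IsEmbedding φ)
    (hess : ∀ L : AddSubgroup K, IsClosed (L : Set K) → L ≠ ⊥ → ∃ a : A, a ≠ 0 ∧ φ a ∈ L) :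
    Minimal A := by
  have hcl : ∀ V : Set A, @closure A t V = φ ⁻¹' closure (φ '' V) := fun V =>
    hφ.isInducing.closure_eq_preimage_closure_image V
  have hnh : @nhds A t 0 = comap φ (𝓝 (0 : K)) := by
    rw [hφ.isInducing.nhds_eq_comap, map_zero]
  have hG : IsTopologicalAddGroup A := inferInstance
  refine ⟨hφ.t2Space, fun σ hσ hT hle => ?_⟩
  set F : Filter A := @nhds A σ 0 with hF
  have hadd : ∀ V ∈ F, ∃ W ∈ F, ∀ a ∈ W, ∀ b ∈ W, a + b ∈ V := by
    intro V hV
    have h1 : Tendsto (fun p : A × A => p.1 + p.2) (F ×ˢ F) F := by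
      have := (@continuous_add A σ _ (@IsTopologicalAddGroup.toContinuousAdd A σ _ hσ))
      have h2 := (@Continuous.tendsto _ _ (@instTopologicalSpaceProd A A σ σ) σ _ this (0, 0))
      rw [@nhds_prod_eq A A σ σ 0 0] at h2
      simpa using h2
    obtain ⟨W, hW, hWV⟩ := mem_prod_self_iff.mp (h1 hV)
    exact ⟨W, hW, fun a ha b hb => hWV (mk_mem_prod ha hb)⟩
  have hneg : ∀ V ∈ F, {a | -a ∈ V} ∈ F := by
    intro V hV
    have := (@continuous_neg A σ _ (@IsTopologicalAddGroup.toContinuousNeg A σ _ hσ))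
    have h2 := (@Continuous.tendsto _ _ σ σ _ this 0)
    rw [neg_zero] at h2
    exact h2 hV
  let L : AddSubgroup K :=
    { carrier := {x | ∀ V ∈ F, x ∈ closure (φ '' V)}
      zero_mem' := by
        intro V hV
        exact subset_closure ⟨0, (@mem_of_mem_nhds A σ 0 V hV), map_zero φ⟩
      add_mem' := by
        intro x y hx hy V hV
        obtain ⟨W, hW, hWV⟩ := hadd V hV
        refine map_mem_closure₂ continuous_add (hx W hW) (hy W hW) ?_
        rintro _ ⟨a, ha, rfl⟩ _ ⟨b, hb, rfl⟩
        exact ⟨a + b, hWV a ha b hb, map_add φ a b⟩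
      neg_mem' := by
        intro x hx V hV
        refine map_mem_closure continuous_neg (hx _ (hneg V hV)) ?_
        rintro _ ⟨a, ha, rfl⟩
        exact ⟨-a, ha, map_neg φ a⟩ }
  have hLcl : IsClosed (L : Set K) := by
    have : (L : Set K) = ⋂ V ∈ F, closure (φ '' V) := by
      ext x
      simp only [mem_iInter]
      exact Iff.rfl
    rw [this]
    exact isClosed_biInter fun _ _ => isClosed_closure
  have hL : L = ⊥ := by
    by_contra hne
    obtain ⟨a, ha, haL⟩ := hess L hLcl hne
    obtain ⟨V, W, hV, hW, h0, haW, hd⟩ := @t2_separation A σ hT 0 a ha.symm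
    have hVF : V ∈ F := @IsOpen.mem_nhds A σ 0 V hV h0
    have h1 : a ∈ @closure A t V := by
      rw [hcl]
      exact haL V hVF
    have hWt : @IsOpen A t W := hle W hW
    obtain ⟨b, hb1, hb2⟩ := (@mem_closure_iff A t a V).mp h1 W hWt haW
    exact hd.le_bot ⟨hb2, hb1⟩
  have hle2 : F ≤ @nhds A t 0 := by
    have h1 : F.map φ ≤ 𝓝 (0 : K) := by
      apply le_nhds_of_unique_clusterPt
      intro x hx
      have hxL : x ∈ L := by
        intro V hV
        exact (clusterPt_iff_forall_mem_closure.mp hx) _ (image_mem_map hV)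
      rw [hL] at hxL
      exact hxL
    rw [hnh]
    exact map_le_iff_le_comap.mp h1
  refine @IsTopologicalAddGroup.ext A _ σ t hσ hG ?_
  refine le_antisymm hle2 ?_
  exact nhds_mono hle

end Pool.Agent.Q307.AMin
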