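import Pool.Agent.Q307.AMin.Ex

set_option autoImplicit false

namespace Pool.Agent.Q307.AMin

open Topology Filter Set

section

variable (c : ℕ → (ℝ →ₗ[ℚ] ℚ))

/-- The closed subgroup. -/
def H : AddSubgroup (G c) where
  carrier := {g | (g.1 : K).2 = (g.2 : UnitAddCircle)}
  zero_mem' := by
    show (0 : UnitAddCircle) = ((0 : ℝ) : UnitAddCircle)
    simp
  add_mem' := by
    intro a b ha hb
    show (a.1 : K).2 + (b.1 : K).2 = ((a.2 + b.2 : ℝ) : UnitAddCircle)
    rw [AddCircle.coe_add, ← (ha : (a.1 : K).2 = _), ← (hb : (b.1 : K).2 = _)]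
  neg_mem' := by
    intro a ha
    show -(a.1 : K).2 = ((-a.2 : ℝ) : UnitAddCircle)
    rw [AddCircle.coe_neg, ← (ha : (a.1 : K).2 = _)]

theorem isClosed_H : IsClosed (H c : Set (G c)) :=
  isClosed_eq (continuous_snd.comp (continuous_subtype_val.comp continuous_fst))
    ((AddCircle.continuous_mk' _).comp continuous_snd)

/-- The first coordinate. -/
def xH : ↥(H c) →+ (ℕ → ZMod 4) :=
  (AddMonoidHom.fst _ _).comp ((N c).subtype.comp ((AddMonoidHom.fst _ _).comp (H c).subtype))

/-- The second coordinate. -/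
def rH : ↥(H c) →+ ℝ := (AddMonoidHom.snd _ _).comp (H c).subtype

variable {c}

theorem cont_xH : Continuous (xH c) :=
  continuous_fst.comp (continuous_subtype_val.comp (continuous_fst.comp continuous_subtype_val))

theorem cont_rH : Continuous (rH c) := continuous_snd.comp continuous_subtype_val

theorem H_ext {g h : ↥(H c)} (h1 : xH c g = xH c h) (h2 : rH c g = rH c h) : g = h := by
  apply Subtype.ext
  refine Prod.ext (Subtype.ext (Prod.ext h1 ?_)) h2
  rw [(g.2 : (g.1.1 : K).2 = (g.1.2 : UnitAddCircle)),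
    (h.2 : (h.1.1 : K).2 = (h.1.2 : UnitAddCircle))]
  exact congrArg _ h2

theorem inducing_H : IsInducing fun g : ↥(H c) => (xH c g, rH c g) := by
  refine IsInducing.of_comp (g := fun p : (ℕ → ZMod 4) × ℝ =>
    (((p.1, (p.2 : UnitAddCircle)) : K), p.2)) (cont_xH.prodMk cont_rH) ?_ ?_
  · exact (continuous_fst.prodMk ((AddCircle.continuous_mk' _).comp continuous_snd)).prodMk
      continuous_snd
  · have h1 : IsInducing fun g : ↥(H c) => ((g.1.1 : K), g.1.2) :=
      (((IsEmbedding.subtypeVal (p := fun k => k ∈ N c)).isInducing).prodMap IsInducing.id).comp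
        (IsEmbedding.subtypeVal (p := fun g => g ∈ H c)).isInducing
    convert h1 using 1
    funext g
    refine Prod.ext (Prod.ext rfl ?_) rfl
    exact (g.2 : (g.1.1 : K).2 = (g.1.2 : UnitAddCircle)).symm

variable (hc : ∀ i, c i 1 = 0)

include hc in
theorem H_InE (g : ↥(H c)) : InE c (xH c g) (rH c g) := by
  obtain ⟨r, hr, h⟩ := g.1.1.2
  refine h.shift hc ?_
  rw [hr]
  exact g.2

/-- Closed minimal subgroups have trivial second coordinates. -/
theorem minimal_sub {M : AddSubgroup ↥(H c)} (hM : Minimal M) (m : M) : rH c m.1 = 0 := by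
  by_contra hr
  set r := rH c m.1 with hrd
  set a : ℝ := 4 * r with ha
  have ha0 : a ≠ 0 := mul_ne_zero (by norm_num) hr
  let P := (ℕ → ZMod 4) × ((k : ℕ) → AddCircle (a * (k.factorial : ℝ)))
  let j : ↥M →+ P := ((xH c).comp M.subtype).prod
    (AddMonoidHom.pi fun k => (QuotientAddGroup.mk' _).comp ((rH c).comp M.subtype))
  have hjc : Continuous j := by
    refine (cont_xH.comp continuous_subtype_val).prodMk (continuous_pi fun k => ?_)
    exact (AddCircle.continuous_mk' _).comp (cont_rH.comp continuous_subtype_val)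
  have hj1 : ∀ g, (j g).1 = xH c g.1 := fun g => rfl
  have hj2 : ∀ g k, (j g).2 k = ((rH c g.1 : ℝ) : AddCircle (a * (k.factorial : ℝ))) :=
    fun g k => rfl
  have hj : Function.Injective j := by
    rw [injective_iff_map_eq_zero]
    intro g hg
    have h1 : xH c g.1 = 0 := by rw [← hj1, hg]; rfl
    have h2 : rH c g.1 = 0 := by
      by_contra hne
      obtain ⟨k, hk⟩ := exists_nat_gt (|rH c g.1| / |a|)
      have hpos : 0 < |a| := abs_pos.mpr ha0
      rw [div_lt_iff₀ hpos] at hk
      have h3 : ((rH c g.1 : ℝ) : AddCircle (a * (k.factorial : ℝ))) = 0 := by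
        rw [← hj2, hg]; rfl
      obtain ⟨n, hn⟩ := (AddCircle.coe_eq_zero_iff _).mp h3
      rw [zsmul_eq_mul] at hn
      have hn0 : n ≠ 0 := by
        rintro rfl
        apply hne
        rw [← hn]; simp
      have h4 : (1 : ℝ) ≤ |(n : ℝ)| := by
        have := Int.one_le_abs hn0
        exact_mod_cast this
      have h5 : (k : ℝ) ≤ (k.factorial : ℝ) := by exact_mod_cast Nat.self_le_factorial k
      have h6 : |rH c g.1| = |(n : ℝ)| * (|a| * k.factorial) := by
        rw [← hn, abs_mul, abs_mul, Nat.abs_cast]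
      have h7 : |a| * (k.factorial : ℝ) ≤ |rH c g.1| := by
        rw [h6]
        exact le_mul_of_one_le_left (by positivity) h4
      have h8 : (k : ℝ) * |a| ≤ |a| * (k.factorial : ℝ) := by
        rw [mul_comm]
        exact mul_le_mul_of_nonneg_left h5 hpos.le
      linarith
    exact Subtype.ext (H_ext (h1.trans (map_zero _).symm) (h2.trans (map_zero _).symm))
  have hσ := hM.2 (TopologicalSpace.induced j inferInstance)
    (topologicalAddGroup_induced j)
    (@T2Space.of_injective_continuous _ _ (TopologicalSpace.induced j inferInstance) _ _ j hj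
      continuous_induced_dom) (continuous_iff_le_induced.mp hjc)
  set s : ℕ → ↥M := fun n => n.factorial • (4 • m) with hs
  have hrs : ∀ n, rH c (s n).1 = n.factorial * a := by
    intro n
    have : rH c (s n).1 = n.factorial • (4 • rH c m.1) := by
      rw [← map_nsmul, ← map_nsmul]; rfl
    rw [this, ha]
    simp [nsmul_eq_mul, hrd]
  have hxs : ∀ n, xH c (s n).1 = 0 := by
    intro n
    have : xH c (s n).1 = n.factorial • (4 • xH c m.1) := by
      rw [← map_nsmul, ← map_nsmul]; rfl
    rw [this]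
    have h4 : 4 • xH c m.1 = 0 := by
      funext i
      exact four_smul _
    rw [h4, smul_zero]
  have htend : Tendsto s atTop (@nhds _ (TopologicalSpace.induced j inferInstance) 0) := by
    rw [nhds_induced, tendsto_comap_iff, map_zero]
    rw [show (0 : P) = (0, 0) from rfl, nhds_prod_eq]
    refine Tendsto.prodMk ?_ ?_
    · have : (fun n => (j (s n)).1) = fun _ => 0 := by
        funext n
        rw [hj1, hxs]
      exact (this ▸ tendsto_const_nhds : Tendsto (fun n => (j (s n)).1) atTop (𝓝 0))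
    · refine tendsto_pi_nhds.mpr fun k => ?_
      refine tendsto_const_nhds.congr' ?_
      filter_upwards [eventually_ge_atTop k] with n hn
      show (0 : AddCircle (a * (k.factorial : ℝ))) = (j (s n)).2 k
      rw [hj2, hrs]
      symm
      rw [AddCircle.coe_eq_zero_iff]
      obtain ⟨q, hq⟩ := Nat.factorial_dvd_factorial hn
      refine ⟨(q : ℤ), ?_⟩
      rw [hq, zsmul_eq_mul]
      push_cast
      ring
  rw [hσ] at htend
  have h1 : Tendsto (fun n => rH c (s n).1) atTop (𝓝 0) := by
    have h2 : Tendsto (fun g : ↥M => rH c g.1) (𝓝 0) (𝓝 0) := by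
      have := (cont_rH (c := c)).comp (continuous_subtype_val (p := fun g => g ∈ M))
      have h3 := this.tendsto 0
      rw [show (⇑(rH c) ∘ Subtype.val) (0 : ↥M) = 0 from map_zero _] at h3
      exact h3
    exact h2.comp htend
  have h2 := (Metric.tendsto_nhds.mp h1) |a| (abs_pos.mpr ha0)
  obtain ⟨n, hn⟩ := h2.exists
  rw [hrs, dist_zero_right, Real.norm_eq_abs, abs_mul, Nat.abs_cast] at hn
  have h3 : (1 : ℝ) ≤ (n.factorial : ℝ) := by exact_mod_cast Nat.succ_le_of_lt n.factorial_pos
  nlinarith [abs_pos.mpr ha0]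

variable {r : ℕ → ℝ} (hr : ∀ i n, c i (r n) = if i = n then 1 else 0)

include hc hr in
theorem exists_elt (n : ℕ) {δ : ℝ} (hδ : 0 < δ) : ∃ g : ↥(H c), xH c g = Pi.single n 1 ∧
    |rH c g| < δ := by
  obtain ⟨q, hq1, hq2⟩ := exists_rat_btwn (show r n - δ < r n by linarith)
  have hin : ((Pi.single n 1, ((r n - q : ℝ) : UnitAddCircle)) : K) ∈ N c := by
    refine ⟨r n - q, rfl, fun i => ?_⟩
    rw [map_sub, hr, c_rat hc, sub_zero]
    by_cases h : i = n
    · subst h
      exact ⟨1, by simp, by simp⟩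
    · exact ⟨0, by simp [h], by simp [h]⟩
  refine ⟨⟨(⟨_, hin⟩, r n - q), rfl⟩, rfl, ?_⟩
  show |r n - q| < δ
  rw [abs_lt]
  constructor <;> linarith

include hc hr in
theorem not_almostMinimal_H : ¬ AlmostMinimal ↥(H c) := by
  rintro ⟨M, -, hM, -, U, hU, -, hbasis⟩
  have h1 : (QuotientAddGroup.mk ⁻¹' U : Set ↥(H c)) ∈ 𝓝 (0 : ↥(H c)) := by
    have : Continuous (QuotientAddGroup.mk : ↥(H c) → ↥(H c) ⧸ M) :=
      QuotientAddGroup.continuous_mk
    exact this.continuousAt (by simpa using hU)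
  rw [inducing_H.nhds_eq_comap, map_zero, map_zero, mem_comap] at h1
  obtain ⟨W, hW, hWU⟩ := h1
  rw [mem_nhds_prod_iff] at hW
  obtain ⟨A, hA, B, hB, hAB⟩ := hW
  obtain ⟨A', hA'A, hA'o, hA'0⟩ := mem_nhds_iff.mp hA
  obtain ⟨I, u, hu, huA⟩ := isOpen_pi_iff.mp hA'o 0 hA'0
  obtain ⟨ε, hε, hball⟩ := Metric.mem_nhds_iff.mp hB
  obtain ⟨n, hn⟩ : ∃ n, ∀ i ∈ I, i < n := ⟨I.sup id + 1, fun i hi =>
    Nat.lt_succ_of_le (Finset.le_sup (f := id) hi)⟩
  have key : ∀ g : ↥(H c), (∀ i < n, xH c g i = 0) → |rH c g| < ε →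
      (QuotientAddGroup.mk g : ↥(H c) ⧸ M) ∈ U := by
    intro g hg1 hg2
    refine hWU (show (xH c g, rH c g) ∈ W from hAB (mk_mem_prod (hA'A (huA ?_)) (hball ?_)))
    · intro i hi
      rw [hg1 i (hn i hi)]
      exact (hu i hi).2
    · rw [Metric.mem_ball, dist_zero_right]
      exact hg2
  -- the open subgroup
  set V' : Set ↥(H c) := {g | md (xH c g n) = 0} with hV'
  have hV'o : IsOpen V' := by
    have h2 : Continuous fun g : ↥(H c) => xH c g n := (continuous_apply n).comp cont_xH
    have h3 : V' = (fun g : ↥(H c) => xH c g n) ⁻¹' {a | md a = 0} := rfl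
    rw [h3]
    exact (isOpen_discrete _).preimage h2
  have hV : (QuotientAddGroup.mk '' V' : Set (↥(H c) ⧸ M)) ∈ 𝓝 (0 : ↥(H c) ⧸ M) := by
    refine (QuotientAddGroup.isOpenMap_coe _ hV'o).mem_nhds ⟨0, ?_, rfl⟩
    show md (xH c 0 n) = 0
    rw [map_zero]
    simp
  obtain ⟨m, hm, hmV⟩ := hbasis.mem_iff.mp hV
  have hm0 : (0 : ℝ) < m := by exact_mod_cast hm
  obtain ⟨g, hg1, hg2⟩ := exists_elt hc hr n (div_pos hε hm0)
  rw [lt_div_iff₀ hm0] at hg2
  have hfrac : (QuotientAddGroup.mk g : ↥(H c) ⧸ M) ∈ frac m U := by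
    intro k _ hk
    have : k • (QuotientAddGroup.mk g : ↥(H c) ⧸ M) = QuotientAddGroup.mk (k • g) := rfl
    rw [this]
    apply key
    · intro i hi
      rw [map_nsmul, hg1, Pi.smul_apply, Pi.single_eq_of_ne (ne_of_lt hi), smul_zero]
    · rw [map_nsmul, nsmul_eq_mul, abs_mul, Nat.abs_cast]
      have h2 : (k : ℝ) ≤ m := by exact_mod_cast hk
      calc (k : ℝ) * |rH c g| ≤ m * |rH c g| := mul_le_mul_of_nonneg_right h2 (abs_nonneg _)
        _ < ε := by rw [mul_comm]; exact hg2
  obtain ⟨v, hv, hvg⟩ := hmV hfrac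
  have hvM : -v + g ∈ M := QuotientAddGroup.eq.mp hvg
  have h0 := minimal_sub hM ⟨-v + g, hvM⟩
  obtain ⟨k, hk1, hk2⟩ := H_InE hc (-v + g) n
  rw [show rH c (-v + g) = 0 from h0, map_zero] at hk1
  have hk0 : k = 0 := by exact_mod_cast hk1.symm
  rw [hk0, Int.cast_zero, map_add, map_neg, Pi.add_apply, Pi.neg_apply, map_add, map_neg,
    (hv : md (xH c v n) = 0), neg_zero, zero_add, hg1, Pi.single_eq_same] at hk2
  exact md_one hk2

end

/-- There is an almost minimal group with a closed subgroup which is not almost minimal. -/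
theorem exists_counterexample : ∃ (G : Type) (_ : AddCommGroup G) (_ : TopologicalSpace G)
    (_ : IsTopologicalAddGroup G) (_ : T2Space G), AlmostMinimal G ∧
    ∃ H : AddSubgroup G, IsClosed (H : Set G) ∧ ¬ AlmostMinimal H := by
  obtain ⟨c, r, hc, hr⟩ := exists_coords
  exact ⟨G c, inferInstance, inferInstance, inferInstance, inferInstance, almostMinimal_G hc, H c,
    isClosed_H c, not_almostMinimal_H hc hr⟩

end Pool.Agent.Q307.AMin
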